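import Mathlib
import Pool.Graph.R_seed8.W307.RT.Tors
import Pool.Agent.H457.A.BF3

/-!
# Ranks of the elliptic curves with torsion `Z/2 x Z/6`: a super-exponential tail

All elliptic curves `E` over `ℚ` whose group of rational points contains `Z/2 x Z/6`, ordered by
height: for every `r` the proportion of those of rank at least `r` is at most
`C exp (-c r log r)` for all large heights, with absolute constants `C`, `c > 0`.
-/

set_option autoImplicit false

namespace Pool.Agent.Results.MP_9e6228_nt.TwoSixTail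

open Finset Filter

/-- the curve `y² = x³ + A x + B` over `ℚ` -/
def E (A B : ℤ) : WeierstrassCurve ℚ := ⟨0, 0, 0, (A : ℚ), (B : ℚ)⟩

open Classical in
/-- The pairs `(A, B)` of integers such that `4 A³ + 27 B² ≠ 0`, there is no prime `p` with
`p⁴ ∣ A` and `p⁶ ∣ B`, the height `max (4 |A|³) (27 B²)` is at most `H`, and `Z/2 x Z/6` embeds in
the group of the rational points of `y² = x³ + A x + B`. (The bounds `|A|, |B| ≤ H` follow from the
bound of the height. Every elliptic curve over `ℚ` is isomorphic to `E A B` for exactly one pair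
with the first two properties.) -/
noncomputable def Fam (H : ℕ) : Finset (ℤ × ℤ) :=
  ((Icc (-(H : ℤ)) H) ×ˢ (Icc (-(H : ℤ)) H)).filter (fun c : ℤ × ℤ =>
    4 * c.1 ^ 3 + 27 * c.2 ^ 2 ≠ 0 ∧ 4 * |c.1| ^ 3 ≤ H ∧ 27 * c.2 ^ 2 ≤ H ∧
    (∀ p : ℕ, p.Prime → ¬ ((p : ℤ) ^ 4 ∣ c.1 ∧ (p : ℤ) ^ 6 ∣ c.2)) ∧
    ∃ f : ZMod 2 × ZMod 6 →+ (E c.1 c.2).toAffine.Point, Function.Injective f)

open Classical in
/-- the members of `Fam H` of rank at least `r` -/
noncomputable def FamRank (r H : ℕ) : Finset (ℤ × ℤ) :=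
  (Fam H).filter (fun c : ℤ × ℤ => r ≤ Module.finrank ℤ (E c.1 c.2).toAffine.Point)

lemma Fam_eq (H : ℕ) : Fam H = Pool.Agent.W307.RT.Cv 6 H := by
  classical
  unfold Fam Pool.Agent.W307.RT.Cv
  apply filter_congr
  intro c _
  have h : Pool.Agent.W307.RT.HasT 6 (Pool.Agent.W307.RT.Sh c.1 c.2) ↔
      ∃ f : ZMod 2 × ZMod 6 →+ (E c.1 c.2).toAffine.Point, Function.Injective f :=
    Pool.Agent.W307.RT.tors_iff
  rw [h]

/-- **Theorem.** The number of the elliptic curves over `ℚ` of height at most `H` whose group of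
rational points contains `Z/2 x Z/6` tends to infinity with `H`, and there are constants
`C, c > 0` such that for every `r` and all large `H` the number of those of rank at least `r` is at
most `C exp (-c r log r)` times the number of all of them. -/
theorem result : Tendsto (fun H : ℕ => (Fam H).card) atTop atTop ∧
    ∃ C c : ℝ, 0 < C ∧ 0 < c ∧ ∀ r : ℕ, ∀ᶠ H : ℕ in atTop,
      ((FamRank r H).card : ℝ) ≤ C * Real.exp (-(c * r * Real.log r)) * (Fam H).card := by
  refine ⟨?_, ?_⟩
  · simp only [Fam_eq]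
    exact Pool.Agent.W307.RT.tendsto_of_low Pool.Agent.W376.RTL.low6
  · obtain ⟨C, c, hC, hc, h⟩ := Pool.Agent.H457.A.height_tail6
    refine ⟨C, c, hC, hc, fun r => ?_⟩
    filter_upwards [h r] with H hH
    rw [mul_assoc c]
    have h1 : FamRank r H = Pool.Agent.H457.A.CRm 6 r H := by
      unfold FamRank Pool.Agent.H457.A.CRm
      rw [Fam_eq]
      rfl
    rw [h1, Fam_eq]
    exact hH

end Pool.Agent.Results.MP_9e6228_nt.TwoSixTail
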